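import Pool.Agent.helper17.HH.SpecB

/-!
# Row hh:BQW (MP_07c750_an, project HH): the quotient of the scaling factors
-/

set_option autoImplicit false

open scoped Pointwise
open MeasureTheory Set

namespace Pool.Agent.HH

theorem BQW_D {X w : ℝ} (hX : |X| ≤ 3) (hw : |w| ≤ 1 / 16) : 13 / 16 ≤ 1 - w * X ∧ 1 - w * X ≤ 19 / 16 := by
  have h : |w * X| ≤ 3 / 16 := by
    rw [abs_mul]
    calc |w| * |X| ≤ 1 / 16 * 3 := mul_le_mul hw hX (abs_nonneg _) (by norm_num)
      _ = 3 / 16 := by norm_num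
  rw [abs_le] at h
  constructor <;> linarith [h.1, h.2]

theorem BQW_r {X X' w : ℝ} (hX : |X| ≤ 3) (hX' : |X'| ≤ 3) (hw : |w| ≤ 1 / 16) :
    13 / 19 ≤ (1 - w * X') / (1 - w * X) ∧ (1 - w * X') / (1 - w * X) ≤ 19 / 13 := by
  have h1 := BQW_D hX hw
  have h2 := BQW_D hX' hw
  have h3 : 0 < 1 - w * X := by linarith [h1.1]
  constructor
  · rw [le_div_iff₀ h3]
    linarith [h1.1, h1.2, h2.1, h2.2]
  · rw [div_le_iff₀ h3]
    linarith [h1.1, h1.2, h2.1, h2.2]

theorem BQW_proof : BQW_stmt := by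
  refine ⟨30, by norm_num, fun X X' w w' hX hX' hw hw' => ?_⟩
  have d1 := BQW_D hX hw
  have d2 := BQW_D hX hw'
  have d3 := BQW_D hX' hw
  have r1 := BQW_r hX hX' hw
  have r2 := BQW_r hX hX' hw'
  have p1 : 0 < 1 - w * X := by linarith [d1.1]
  have p2 : 0 < 1 - w' * X := by linarith [d2.1]
  have p3 : 0 < 1 - w * X' := by linarith [d3.1]
  have e1 : (1 - w * X') / (1 - w * X) - (1 - w' * X') / (1 - w' * X) =
      (X - X') * (w - w') / ((1 - w * X) * (1 - w' * X)) := by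
    have n1 := p1.ne'
    have n2 := p2.ne'
    rw [div_sub_div _ _ n1 n2]
    congr 1
    ring
  have e2 : qq X X' w - qq X X' w' = (X - X') * (w - w') / ((1 - w * X) * (1 - w' * X)) *
      ((1 - w * X') / (1 - w * X) + (1 - w' * X') / (1 - w' * X)) := by
    unfold qq
    rw [← e1]
    ring
  set u := (1 - w * X') / (1 - w * X) with hu
  set v := (1 - w' * X') / (1 - w' * X) with hv
  set D := (1 - w * X) * (1 - w' * X) with hD
  have hD1 : 0 < D := mul_pos p1 p2
  have hD2 : D ≤ 361 / 256 := by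
    calc D ≤ 19 / 16 * (19 / 16) := mul_le_mul d1.2 d2.2 p2.le (by norm_num)
      _ = 361 / 256 := by norm_num
  have hD3 : 169 / 256 ≤ D := by
    calc (169 / 256 : ℝ) = 13 / 16 * (13 / 16) := by norm_num
      _ ≤ D := mul_le_mul d1.1 d2.1 (by norm_num) p1.le
  have huv : 0 < u + v := by linarith [r1.1, r2.1]
  have e3 : |qq X X' w - qq X X' w'| = |X - X'| * |w - w'| / D * (u + v) := by
    rw [e2, abs_mul, abs_div, abs_mul, abs_of_pos hD1, abs_of_pos huv]
  have ha : 0 ≤ |X - X'| * |w - w'| := mul_nonneg (abs_nonneg _) (abs_nonneg _)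
  refine ⟨?_, ?_, ?_, ?_, ?_⟩
  · rw [e3]
    have h1 : |X - X'| * |w - w'| = |X - X'| * |w - w'| / D * D := by
      field_simp
    have h2 : 0 ≤ |X - X'| * |w - w'| / D := div_nonneg ha hD1.le
    nlinarith [r1.1, r2.1]
  · rw [e3]
    have h1 : |X - X'| ≤ 6 := (abs_sub_le X 0 X').trans (by
      rw [sub_zero, zero_sub, abs_neg]
      linarith)
    have h2 : |X - X'| * |w - w'| / D ≤ 6 * |w - w'| / (169 / 256) :=
      div_le_div₀ (mul_nonneg (by norm_num) (abs_nonneg _)) (mul_le_mul_of_nonneg_right h1 (abs_nonneg _)) (by norm_num) hD3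
    have h3 : u + v ≤ 38 / 13 := by linarith [r1.2, r2.2]
    calc |X - X'| * |w - w'| / D * (u + v) ≤ 6 * |w - w'| / (169 / 256) * (38 / 13) :=
          mul_le_mul h2 h3 huv.le (by positivity)
      _ ≤ 30 * |w - w'| := by nlinarith [abs_nonneg (w - w')]
  · unfold qq
    rw [← hu]
    nlinarith [r1.1, r1.2]
  · unfold qq
    rw [← hu]
    nlinarith [r1.1, r1.2]
  · unfold IR.om qq
    field_simp

end Pool.Agent.HH
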